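import Pool.Agent.Helper42.KS.Fin
import Pool.Agent.Helper77.KS.DIFF
import Pool.Agent.Helper49.KS.MSUM
import Pool.Agent.Helper59.KS.DIVB
import Pool.Agent.Helper33.KS.WEYL
import Pool.Agent.Helper75.KS.SM
import Pool.Agent.Helper31.KS.INT
import Pool.Agent.Helper8.KS.WC
import Pool.Agent.Helper89.KS.PR
import Pool.Agent.Helper5.KS.ME
import Pool.Agent.Helper73.KS.BG
import Pool.Agent.Helper69.KS.C2
import Pool.Agent.Helper90.KS.C1
import Pool.Agent.Helper65.KS.RWT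
import Pool.Agent.Helper85.KS.ST
import Pool.Agent.Helper57.KS.MOR
import Pool.Agent.Helper54.KS.GPP
import Pool.Agent.Helper32.KS.GM
import Pool.Agent.Helper86.KS.GB
import Pool.Agent.Helper27.KS.PQ
import Pool.Agent.Helper83.KS.V1
import Pool.Agent.Helper8.KS.V2
import Pool.Agent.Helper61.KS.LOW
import Pool.Agent.Helper15.KS.RS
import Pool.Agent.Helper30.KS.ONE
import Pool.Agent.Helper40.KS.MULT
import Pool.Agent.Helper39.KS.BES
import Pool.Agent.Helper96.KS.PAR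
import Pool.Agent.Helper74.KS.W11
import Pool.Agent.Helper40.KS.MAXQ
import Pool.Agent.Helper26.KS.HF
import Pool.Agent.Helper38.KS.LF
import Pool.Agent.Helper38.KS.MIN1
import Pool.Agent.Helper17.KS.MIN2
import Pool.Agent.Helper3.KS.DEC
import Pool.Agent.Helper67.KS.C3
import Pool.Agent.Helper42.KS.SSM
import Pool.Agent.Helper95.KS.SSP
import Pool.Agent.Helper50.KS.SSL
import Pool.Agent.Helper13.KS.SS
import Pool.Agent.Helper19.KS.SINT
import Pool.Agent.Helper36.KS.MAJ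
import Pool.Agent.Helper47.KS.NB

set_option autoImplicit false

/-!
# MP_40ec72_an: the sharp range of the arithmetic k-spherical maximal function in high dimension

For every `k ≥ 3` there is `d₁(k)` such that for all `d ≥ d₁(k)` the number of lattice points of the
k-sphere satisfies `N_{k,d}(r) ≍ r^(d-k)` and the maximal operator `A_*` is bounded on `ℓ^p(ℤ^d)`,
`1 ≤ p < ∞`, if and only if `p > d/(d-k)`.
-/

namespace Pool.Agent.Results.MP_40ec72_an.SharpRangeHighDimension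

open scoped ENNReal NNReal

/-- The k-sphere of radius `r` in `ℤ^d`: the points `m` with `Σ |m_i|^k = r^k`. -/
def Sph (k d : ℕ) (r : ℝ) : Set (Fin d → ℤ) := {m | ∑ i, |(m i : ℝ)| ^ k = r ^ k}

/-- The admissible radii: `r > 0`, `r^k` a natural number, and the sphere of radius `r` is not
empty. -/
def Radii (k d : ℕ) : Set ℝ := {r | 0 < r ∧ (∃ n : ℕ, r ^ k = n) ∧ (Sph k d r).Nonempty}

/-- `N_{k,d}(r)`, the number of points of the (finite) sphere. -/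
noncomputable def Num (k d : ℕ) (r : ℝ) : ℕ := (Sph k d r).ncard

/-- The average `A_r f(x) = N_{k,d}(r)⁻¹ Σ_{y ∈ S_r} f(x - y)`. -/
noncomputable def Avg (k d : ℕ) (f : (Fin d → ℤ) → ℂ) (r : ℝ) (x : Fin d → ℤ) : ℂ :=
  (Num k d r : ℂ)⁻¹ * ∑' y : Sph k d r, f (x - y)

/-- The maximal function `A_* f(x) = sup_r |A_r f(x)|` over the admissible radii. -/
noncomputable def Amax (k d : ℕ) (f : (Fin d → ℤ) → ℂ) (x : Fin d → ℤ) : ℝ≥0∞ :=
  ⨆ r ∈ Radii k d, ‖Avg k d f r x‖ₑ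

/-- `A_*` is bounded on `ℓ^p(ℤ^d)`: there is `C` with `Σ_x (A_* f(x))^p ≤ C Σ_x |f(x)|^p` for
all `f`. -/
def LpBounded (k d : ℕ) (p : ℝ) : Prop :=
  ∃ C : ℝ≥0, ∀ f : (Fin d → ℤ) → ℂ, ∑' x, (Amax k d f x) ^ p ≤ C * ∑' x, ‖f x‖ₑ ^ p

open Pool.Agent.Helper42.KS in
theorem result :
    ∀ k : ℕ, 3 ≤ k → ∃ d₁ : ℕ, ∀ d : ℕ, d₁ ≤ d →
      (∃ c C r₀ : ℝ, 0 < c ∧ ∀ r ∈ Radii k d, r₀ ≤ r →
        c * r ^ ((d : ℝ) - k) ≤ Num k d r ∧ (Num k d r : ℝ) ≤ C * r ^ ((d : ℝ) - k)) ∧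
      ∀ p : ℝ, 1 ≤ p → (LpBounded k d p ↔ (d : ℝ) / ((d : ℝ) - k) < p) := by
  have hWEYL : G_WEYL := PkWEYL.thm PkDIFF.thm PkMSUM.thm PkDIVB.thm
  have hWC : G_WC := PkWC.thm hWEYL
  have hBG : G_BG := PkBG.thm PkINT.thm hWC PkPR.thm PkME.thm
  have hC2 : G_C2 := PkC2.thm PkSM.thm hBG
  have hGPP : G_GPP := PkGPP.thm PkMOR.thm
  have hGB : G_GB := PkGB.thm hGPP PkGM.thm
  have hPQ : G_PQ := PkPQ.thm hGB
  have hLOW : G_LOW := PkLOW.thm PkV1.thm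
  have hRS : G_RS := PkRS.thm PkV2.thm
  have hONE : G_ONE := PkONE.thm hGB hPQ PkV1.thm PkV2.thm hRS
  have hMULT : G_MULT := PkMULT.thm hONE
  have hMAXQ : G_MAXQ := PkMAXQ.thm PkW11.thm
  have hHF : G_HF := PkHF.thm hMULT PkBES.thm PkPAR.thm
  have hLF : G_LF := PkLF.thm hPQ PkBES.thm PkPAR.thm hMAXQ
  have hMIN1 : G_MIN1 := PkMIN1.thm hWEYL
  have hMIN2 : G_MIN2 := PkMIN2.thm hMIN1 PkBES.thm PkPAR.thm
  have hC3 : G_C3 := PkC3.thm PkDEC.thm hHF hLF hLOW hMIN2 PkW11.thm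
  have hRWT : G_RWT := PkRWT.thm PkC1.thm hC2 hC3
  have hSS : G_SS := PkSS.thm PkSSM.thm PkSSP.thm PkSSL.thm hGPP hGB
  have hSINT : G_SINT := PkSINT.thm PkV1.thm
  have hMAJ : G_MAJ := PkMAJ.thm hMIN1 hRS PkV1.thm hGB
  have hNB : G_NB := PkNB.thm hSS hSINT hLOW hMAJ
  exact final hRWT PkST.thm hNB

end Pool.Agent.Results.MP_40ec72_an.SharpRangeHighDimension
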